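import Pool.Agent.P.MP_b0c4db_lc.H59.Mom

/-!
# Abstract soundness theorem
-/

namespace H59CVP

open Polynomial Finset

variable {F : Type*} [Field F] [Fintype F]

theorem eq_of_eval {P Q : F[X]} {n : ℕ} (hP : P.natDegree ≤ n) (hQ : Q.natDegree ≤ n)
    (hn : n < Fintype.card F) (h : ∀ t, P.eval t = Q.eval t) : P = Q :=
  eq_of_natDegree_lt_card_of_eval_eq P Q (f := id) Function.injective_id (fun t => h t)
    (max_lt (hP.trans_lt hn) (hQ.trans_lt hn))

omit [Fintype F] in
theorem X_pow_coeff_natDegree (j i : ℕ) : ((X ^ j : F[X][X]).coeff i).natDegree ≤ 0 := by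
  rw [coeff_X_pow]; split_ifs <;> simp

theorem abs_no {ι κ : Type*} (μ : ι → F → F → F) (al u : ι → Bool → F) (cons : κ → Finset ι)
    (ν : F → F → F) (N : ι → Bool → ℕ → F[X]) (J d D e : ℕ)
    (hJ : 4 * d * e + 3 * e < J) (hp : D + J * (d + 1) < Fintype.card F)
    (hN : ∀ k, ∀ i ∈ cons k, ∀ b, ∀ j ≤ J, (N i b j).natDegree ≤ j * d ∧
      ∀ t, ∑ y, μ i t y * (y - u i b) ^ j = (t - al i b) ^ j * (N i b j).eval t)
    (hν : ∀ k t y, ∑ i ∈ cons k, μ i t y = ν t y) (h1 : ∀ t, ∑ y, ν t y = 1)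
    (Z : Finset (F × F)) (hZ : Z.card < (D + 1) * (e + 1))
    (hsupp : ∀ k, ∀ i ∈ cons k, ∀ t y, μ i t y ≠ 0 → (t, y) ∈ Z) :
    ∃ val : F → F, ∀ k, ∃ i ∈ cons k, ∀ b, val (al i b) = u i b := by
  classical
  rcases isEmpty_or_nonempty κ with hκ | ⟨⟨k₀⟩⟩
  · exact ⟨id, fun k => isEmptyElim k⟩
  obtain ⟨Q, hQ0, hQd, hQD, hQZ⟩ := exists_vanishing Z D e hZ
  set l : ι → Bool → F[X][X] →ₗ[F[X]] F[X] := fun i b => mom (al i b) (u i b) (N i b) J with hl
  have hJp : 0 + J * (d + 1) < Fintype.card F := by omega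
  have hXd : ∀ k, ∀ i ∈ cons k, ∀ b, ∀ j ≤ J, (l i b (X ^ j)).natDegree ≤ 0 + J * (d + 1) :=
    fun k i hi b j hj => mom_natDegree _ _ _ J d 0 (fun j hj => (hN k i hi b j hj).1) _
      (by rw [natDegree_X_pow]; exact hj) (X_pow_coeff_natDegree j)
  have hev : ∀ k, ∀ i ∈ cons k, ∀ b, ∀ Φ : F[X][X], Φ.natDegree ≤ J → ∀ t,
      (l i b Φ).eval t = ∑ y, μ i t y * Φ.evalEval t y :=
    fun k i hi b Φ hΦ t => mom_eval _ _ _ J (μ i) (fun j hj => (hN k i hi b j hj).2) Φ hΦ t
  -- the two sides give the same functional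
  have hside : ∀ k, ∀ i ∈ cons k, ∀ b, ∀ Φ : F[X][X], Φ.natDegree ≤ J → l i b Φ = l i true Φ := by
    intro k i hi b
    apply lin_ext
    intro j hj
    have hj' : (X ^ j : F[X][X]).natDegree ≤ J := by rw [natDegree_X_pow]; exact hj
    refine eq_of_eval (hXd k i hi b j hj) (hXd k i hi true j hj) hJp fun t => ?_
    rw [hev k i hi b _ hj', hev k i hi true _ hj']
  -- `Q` annihilates every table
  have hann : ∀ k, ∀ i ∈ cons k, ∀ b, ∀ j, j + e ≤ J → l i b (X ^ j * Q) = 0 := by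
    intro k i hi b j hj
    have hd : (X ^ j * Q).natDegree ≤ J := by
      refine natDegree_mul_le.trans ?_
      rw [natDegree_X_pow]; omega
    refine eq_of_eval (n := D + J * (d + 1))
      (mom_natDegree _ _ _ J d D (fun j hj => (hN k i hi b j hj).1) _ hd ?_) (by simp) hp
      fun t => ?_
    · intro m
      rw [coeff_X_pow_mul']
      split_ifs
      · exact hQD _
      · simp
    · rw [hev k i hi b _ hd, eval_zero]
      apply Finset.sum_eq_zero
      intro y _
      by_cases hz : μ i t y = 0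
      · rw [hz, zero_mul]
      · rw [evalEval_mul, hQZ _ (hsupp k i hi t y hz), mul_zero, mul_zero]
  -- the base functional
  set M : ℕ → F[X] := fun j => ∑ i ∈ cons k₀, l i true (X ^ j) with hM
  have hsumd : ∀ k, ∀ j ≤ J, (∑ i ∈ cons k, l i true (X ^ j)).natDegree ≤ 0 + J * (d + 1) :=
    fun k j hj => natDegree_sum_le_of_forall_le _ _ fun i hi => hXd k i hi true j hj
  have hsume : ∀ k, ∀ j ≤ J, ∀ t,
      (∑ i ∈ cons k, l i true (X ^ j)).eval t = ∑ y, ν t y * y ^ j := by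
    intro k j hj t
    have hj' : (X ^ j : F[X][X]).natDegree ≤ J := by rw [natDegree_X_pow]; exact hj
    rw [eval_finsetSum, Finset.sum_congr rfl fun i hi => hev k i hi true _ hj' t,
      Finset.sum_comm]
    apply Finset.sum_congr rfl
    intro y _
    rw [← Finset.sum_mul, hν, evalEval_pow, evalEval_X]
  have hbase : ∀ k, ∀ Φ : F[X][X], Φ.natDegree ≤ J →
      fnl (Sq M J) J Φ = (∑ i ∈ cons k, l i true) Φ := by
    intro k
    apply lin_ext
    intro j hj
    rw [fnl_apply, X_pow_mul_Sq M J j hj, LinearMap.sum_apply]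
    refine eq_of_eval (hsumd k₀ j hj) (hsumd k j hj) hJp fun t => ?_
    rw [hsume k₀ j hj, hsume k j hj]
  have hM0 : (Sq M J).coeff J ≠ 0 := by
    rw [Sq_coeff, if_pos le_rfl, Nat.sub_self]
    intro hz
    have := hsume k₀ 0 (Nat.zero_le _) 0
    simp only [hM] at hz
    rw [hz, eval_zero] at this
    simp only [pow_zero, mul_one, h1] at this
    exact zero_ne_one this
  have hAb : Ann (Sq M J) J e Q := by
    rw [ann_iff]
    intro j hj
    have hd : (X ^ j * Q).natDegree ≤ J := by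
      refine natDegree_mul_le.trans ?_
      rw [natDegree_X_pow]; omega
    rw [hbase k₀ _ hd, LinearMap.sum_apply]
    exact Finset.sum_eq_zero fun i hi => hann k₀ i hi true j hj
  obtain ⟨f, m, Q₂, hf, hr, hQe, hA₂⟩ :=
    base_step Q (Sq M J) J e hQ0 hQd (by omega) (by omega) hAb hM0
  rw [ann_iff] at hA₂
  push Not at hA₂
  obtain ⟨j, hj, hne⟩ := hA₂
  have hQ₂d : Q₂.natDegree ≤ e :=
    (natDegree_le_of_dvd (Dvd.intro_left _ hQe.symm) hQ0).trans hQd
  have hd₂ : (X ^ j * Q₂).natDegree ≤ J := by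
    refine natDegree_mul_le.trans ?_
    rw [natDegree_X_pow]; omega
  have hgood : ∀ k, ∃ i ∈ cons k, ∀ b, Good f (al i b) (u i b) := by
    intro k
    rw [hbase k _ hd₂, LinearMap.sum_apply] at hne
    obtain ⟨i, hi, hne'⟩ := Finset.exists_ne_zero_of_sum_ne_zero hne
    refine ⟨i, hi, fun b => ?_⟩
    rw [← hside k i hi b _ hd₂] at hne'
    obtain ⟨c, f', hc, hf', hdeg, hG⟩ := shift_prim f hf hr (al i b) (u i b)
    apply hG
    refine local_step (Q.comp (lin (al i b) (u i b))) (Q₂.comp (lin (al i b) (u i b))) f'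
      (Sq (N i b) J) c m J e (J + 1 - e) d (comp_lin_ne_zero _ _ hQ0)
      (by rw [hQe, mul_comp, pow_comp, hc]) hf' (by omega) ?_ ?_ (by omega) (Sq_natDegree _ _)
      (WD_Sq _ _ _ fun j hj => (hN k i hi b j hj).1) ?_ ?_
    · rw [ann_iff]
      intro n hn
      have h2 := lin_mul_zero (l i b) J e Q (hann k i hi b) ((X - C (C (u i b))) ^ n) (by
        rw [natDegree_pow, natDegree_X_sub_C]; omega)
      simp only [hl] at h2
      rw [mom_apply, mul_comp, pow_comp, sub_comp_lin, mul_pow, ← C_pow, mul_assoc,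
        ← smul_eq_C_mul, map_smul, smul_eq_mul] at h2
      exact (mul_eq_zero.mp h2).resolve_left (pow_ne_zero _ (X_sub_C_ne_zero _))
    · intro hA
      rw [ann_iff] at hA
      apply hne'
      simp only [hl]
      rw [mom_apply, mul_comp]
      exact lin_mul_zero _ J e _ hA _ (by rw [natDegree_comp_lin, natDegree_X_pow]; exact hj)
    · intro h h0 hd
      by_contra hc
      push Not at hc
      rw [natDegree_comp_lin] at hd
      have : J ≤ J * (d + 1) := Nat.le_mul_of_pos_right _ (Nat.succ_pos _)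
      exact h0 (eq_of_eval (n := e) (hd.trans hQd) (by simp) (by omega)
        fun t => by rw [hc, eval_zero])
    · rw [natDegree_comp_lin]
      have := Nat.mul_le_mul_left (4 * d) hQd
      omega
  refine ⟨fun α => if h : ∃ v, Good f α v then h.choose else 0, fun k => ?_⟩
  obtain ⟨i, hi, hb⟩ := hgood k
  refine ⟨i, hi, fun b => ?_⟩
  have hex : ∃ v, Good f (al i b) v := ⟨_, hb b⟩
  simp only [dif_pos hex]
  exact Good.unique (hf.isPrimitive hr.ne') hex.choose_spec (hb b)

end H59CVP
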