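import Pool.Agent.P.MP_b0c4db_lc.H59.Pade

/-!
# The core estimate: divisors of a reduced Padé denominator have small leading coefficient
-/

namespace H59CVP

open Polynomial

variable {F : Type*} [Field F]

theorem WD_iff {D : ℕ} {Φ : F[X][X]} {w : ℕ} :
    WD D Φ w ↔ ∀ j i, w < i + j * D → (Φ.coeff j).coeff i = 0 := by
  constructor
  · intro h j i hi
    by_cases hz : Φ.coeff j = 0
    · rw [hz, coeff_zero]
    · exact coeff_eq_zero_of_natDegree_lt (by have := h j hz; omega)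
  · intro h j hj
    by_contra hlt
    exact leadingCoeff_ne_zero.mpr hj (h j _ (by omega))

theorem WD.mul {D : ℕ} {P Q : F[X][X]} {a b : ℕ} (hP : WD D P a) (hQ : WD D Q b) :
    WD D (P * Q) (a + b) := by
  rw [WD_iff] at *
  intro k i hi
  rw [coeff_mul, finsetSum_coeff]
  apply Finset.sum_eq_zero
  intro x hx
  have hx' := Finset.HasAntidiagonal.mem_antidiagonal.mp hx
  rw [coeff_mul]
  apply Finset.sum_eq_zero
  intro y hy
  have hy' := Finset.HasAntidiagonal.mem_antidiagonal.mp hy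
  have e : k * D = x.1 * D + x.2 * D := by rw [← add_mul, hx']
  by_cases h : a < y.1 + x.1 * D
  · rw [hP _ _ h, zero_mul]
  · rw [hQ _ _ (by omega), mul_zero]

theorem WD_one (D : ℕ) : WD D (1 : F[X][X]) 0 := by
  intro j hj
  rw [coeff_one] at hj ⊢
  split_ifs at hj ⊢ with h
  · simp [h]
  · exact absurd rfl hj

theorem WD.pow {D : ℕ} {P : F[X][X]} {a : ℕ} (hP : WD D P a) (n : ℕ) : WD D (P ^ n) (n * a) := by
  induction n with
  | zero => simpa using WD_one D
  | succ n ih => rw [pow_succ, add_mul, one_mul]; exact ih.mul hP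

theorem WD_X_sub_C (D : ℕ) (z : F[X]) (hz : z.natDegree ≤ D) : WD D (X - C z : F[X][X]) D := by
  intro j hj
  rw [coeff_sub, coeff_X, coeff_C] at hj ⊢
  rcases j with _ | _ | j
  · simpa using hz
  · simp
  · simp at hj

theorem dvd_of_primitive {R : Type*} [CommRing R] [IsDomain R] [IsGCDMonoid R] {P : R[X]}
    (hP : P.IsPrimitive) {a c : R} (h : C a ∣ P * C c) : a ∣ c := by
  let : NormalizedGCDMonoid R := Nonempty.some inferInstance
  have h1 := dvd_content_iff_C_dvd.mpr h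
  have h2 := associated_content_mul P (C c)
  rw [hP.content_eq_one, one_mul, content_C] at h2
  exact (h1.trans h2.dvd).trans (normalize_associated c).dvd

theorem primitive_pow {R : Type*} [CommRing R] [IsDomain R] [IsGCDMonoid R] {P : R[X]}
    (hP : P.IsPrimitive) (n : ℕ) : (P ^ n).IsPrimitive := by
  let : NormalizedGCDMonoid R := Nonempty.some inferInstance
  induction n with
  | zero => simp
  | succ n ih => rw [pow_succ]; exact ih.mul hP

/-- (a) the leading coefficient. -/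
theorem lc_pow_dvd {R : Type*} [CommRing R] [IsDomain R] [IsGCDMonoid R]
    (Λ S U V f Y : R[X]) (J b E : ℕ)
    (h : Λ * S = U * X ^ (J + 1) + V) (hV : ∀ i, b ≤ i → V.coeff i = 0) (hb : E + b ≤ J + 1)
    (hS : S.natDegree ≤ J) (hΛ : Λ ≠ 0) (hf : Λ = f * Y) (hp : f.IsPrimitive) :
    f.leadingCoeff ^ E ∣ resultant f U f.natDegree Λ.natDegree := by
  have hinj : Function.Injective (C : R →+* R[X]) := C_injective
  obtain ⟨W, -, hW⟩ := key_of_pade (Λ.map C) (S.map C) (U.map C) (V.map C) (f.map C) (Y.map C)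
    J b E (X : R[X])
    (by rw [← Polynomial.map_mul, h]; simp)
    (by intro i hi; rw [coeff_map, hV i hi, map_zero]) hb
    (natDegree_map_le.trans hS) ((Polynomial.map_ne_zero_iff hinj).mpr hΛ)
    (by rw [hf, Polynomial.map_mul])
  rw [natDegree_map_eq_of_injective hinj, natDegree_map_eq_of_injective hinj, resultant_map_map,
    eval_map, eval₂_C_X, leadingCoeff_map_of_injective hinj] at hW
  apply dvd_of_primitive (primitive_pow hp E)
  rw [C_pow]
  have : f ^ E * C (resultant f U f.natDegree Λ.natDegree) =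
      (-1) ^ (f.natDegree * E) * ((-1) ^ (f.natDegree * E) * f ^ E *
        C (resultant f U f.natDegree Λ.natDegree)) := by
    rw [← mul_assoc, ← mul_assoc, ← mul_pow]; simp
  rw [this, hW]
  exact Dvd.dvd.mul_left (Dvd.intro _ rfl) _

theorem exists_top (D : ℕ) (f : F[X][X]) (hf : f ≠ 0)
    (hF : ∀ h : F[X], h ≠ 0 → h.natDegree ≤ f.natDegree → ∃ s, h.eval s ≠ 0) :
    ∃ s : F, (f.eval (C s * X ^ D)).coeff (wdeg D f) ≠ 0 := by
  set w := wdeg D f with hw
  let h : F[X] := ∑ j ∈ f.support, monomial j ((f.coeff j).coeff (w - j * D))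
  have hc : ∀ j, h.coeff j = (f.coeff j).coeff (w - j * D) := by
    intro j
    simp only [h, finsetSum_coeff, coeff_monomial]
    rw [Finset.sum_ite_eq']
    split_ifs with hj
    · rfl
    · rw [notMem_support_iff.mp hj, coeff_zero]
  obtain ⟨j₀, hj₀, e₀⟩ := exists_wdeg D f hf
  have h0 : h ≠ 0 := by
    intro hz
    have := hc j₀
    rw [hz, coeff_zero, show w - j₀ * D = (f.coeff j₀).natDegree by omega] at this
    exact leadingCoeff_ne_zero.mpr hj₀ this.symm
  have hd : h.natDegree ≤ f.natDegree := by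
    rw [natDegree_le_iff_coeff_eq_zero]
    intro j hj
    rw [hc, coeff_eq_zero_of_natDegree_lt hj, coeff_zero]
  obtain ⟨s, hs⟩ := hF h h0 hd
  refine ⟨s, ?_⟩
  convert hs using 1
  rw [eval_eq_sum, Polynomial.sum, finsetSum_coeff]
  simp only [h, eval_finsetSum, eval_monomial]
  apply Finset.sum_congr rfl
  intro j hj
  have hj' := WD_wdeg D f j (mem_support_iff.mp hj)
  rw [mul_pow, ← C_pow, ← pow_mul, ← mul_assoc, coeff_mul_X_pow', if_pos (by rw [mul_comm]; omega),
    coeff_mul_C, mul_comm D j]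

/-- (a)+(b). -/
theorem eta_ineq (Λ S U V f Y : F[X][X]) (J b E d : ℕ)
    (h : Λ * S = U * X ^ (J + 1) + V) (hV : ∀ i, b ≤ i → V.coeff i = 0) (hb : E + b ≤ J + 1)
    (hS : S.natDegree ≤ J) (hSw : WD d S (J * d)) (hΛ : Λ ≠ 0) (hf : Λ = f * Y)
    (hp : f.IsPrimitive) (hR : resultant f U f.natDegree Λ.natDegree ≠ 0)
    (hF : ∀ h : F[X], h ≠ 0 → h.natDegree ≤ f.natDegree → ∃ s, h.eval s ≠ 0) :
    E * wdeg d f + f.natDegree * Λ.natDegree * d ≤
      Λ.natDegree * wdeg d f + f.natDegree * (wdeg d Λ + E * d) := by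
  have ha := natDegree_le_of_dvd (lc_pow_dvd Λ S U V f Y J b E h hV hb hS hΛ hf hp) hR
  rw [natDegree_pow] at ha
  obtain ⟨s, hs⟩ := exists_top d f hp.ne_zero hF
  obtain ⟨W, hWc, hW⟩ := key_of_pade Λ S U V f Y J b E (C s * X ^ d) h hV hb hS hΛ hf
  have hz : (C s * X ^ d : F[X]).natDegree ≤ d := natDegree_C_mul_X_pow_le s d
  have hWw : WD d W (wdeg d Λ + E * d) := by
    have h1 : WD d ((X - C (C s * X ^ d)) ^ E * S) (E * d + J * d) :=
      ((WD_X_sub_C d _ hz).pow E).mul hSw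
    have h2 : WD d (((X - C (C s * X ^ d)) ^ E * S) %ₘ X ^ (J + 1)) (E * d + J * d) := by
      intro j hj
      rw [coeff_mod_X_pow] at hj ⊢
      split_ifs at hj ⊢ with hlt
      · exact h1 j hj
      · exact absurd rfl hj
    have h3 := (WD_wdeg d Λ).mul h2
    intro k hk
    rw [hWc] at hk ⊢
    have h4 := h3 _ hk
    have e : (k + (J + 1)) * d = k * d + J * d + d := by ring
    omega
  have hev : f.eval (C s * X ^ d) ≠ 0 := by
    intro hz; rw [hz, coeff_zero] at hs; exact hs rfl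
  have hdeg : wdeg d f ≤ (f.eval (C s * X ^ d)).natDegree := le_natDegree_of_ne_zero hs
  have hsg : ((-1) ^ (f.natDegree * E) : F[X]) ≠ 0 := pow_ne_zero _ (neg_ne_zero.mpr one_ne_zero)
  have hL := mul_ne_zero (mul_ne_zero hsg (pow_ne_zero E hev)) hR
  have hRW : resultant f W f.natDegree Λ.natDegree ≠ 0 := by
    intro hz; rw [hW, hz, mul_zero] at hL; exact hL rfl
  have hb' := res_natDegree_le d f W _ _ _ _ (WD_wdeg d f) hWw hRW
  have hn := congrArg natDegree hW
  rw [natDegree_mul (mul_ne_zero hsg (pow_ne_zero E hev)) hR,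
    natDegree_mul hsg (pow_ne_zero E hev),
    natDegree_mul (pow_ne_zero E (leadingCoeff_ne_zero.mpr hp.ne_zero)) hRW,
    natDegree_pow, natDegree_pow, natDegree_pow, natDegree_neg, natDegree_one] at hn
  have := Nat.mul_le_mul_left E hdeg
  omega

theorem lc_le_wdeg (d : ℕ) (f : F[X][X]) (hf : f ≠ 0) :
    f.leadingCoeff.natDegree + f.natDegree * d ≤ wdeg d f :=
  WD_wdeg d f _ (leadingCoeff_ne_zero.mpr hf)

/-- the core estimate. -/
theorem core (Λ S U V f Y : F[X][X]) (J b E d : ℕ)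
    (h : Λ * S = U * X ^ (J + 1) + V) (hV : ∀ i, b ≤ i → V.coeff i = 0) (hb : E + b ≤ J + 1)
    (hS : S.natDegree ≤ J) (hSw : WD d S (J * d)) (hp : Λ.IsPrimitive) (hf : Λ = f * Y)
    (hR : resultant f U f.natDegree Λ.natDegree ≠ 0)
    (hR' : resultant Λ U Λ.natDegree Λ.natDegree ≠ 0)
    (hF : ∀ h : F[X], h ≠ 0 → h.natDegree ≤ Λ.natDegree → ∃ s, h.eval s ≠ 0)
    (hE : 4 * d * Λ.natDegree + 2 * Λ.natDegree < E) (hr : 0 < f.natDegree) :
    4 * f.leadingCoeff.natDegree < f.natDegree := by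
  have hΛ := hp.ne_zero
  have hfp : f.IsPrimitive := isPrimitive_of_dvd hp ⟨Y, hf⟩
  have hle : f.natDegree ≤ Λ.natDegree := natDegree_le_of_dvd ⟨Y, hf⟩ hΛ
  have h1 := eta_ineq Λ S U V Λ 1 J b E d h hV hb hS hSw hΛ (mul_one _).symm hp hR' hF
  have h2 := eta_ineq Λ S U V f Y J b E d h hV hb hS hSw hΛ hf hfp hR
    (fun g hg hd => hF g hg (hd.trans hle))
  have h3 := lc_le_wdeg d f hfp.ne_zero
  have h4 := lc_le_wdeg d Λ hΛ
  obtain ⟨x, hx⟩ : ∃ x, wdeg d f = f.natDegree * d + x := ⟨wdeg d f - f.natDegree * d, by omega⟩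
  obtain ⟨y, hy⟩ : ∃ y, wdeg d Λ = Λ.natDegree * d + y := ⟨wdeg d Λ - Λ.natDegree * d, by omega⟩
  rw [hx] at h2 h3
  rw [hy] at h1 h2
  generalize f.natDegree = r at *
  generalize Λ.natDegree = ρ at *
  obtain ⟨k, rfl⟩ : ∃ k, E = 4 * d * ρ + 2 * ρ + 1 + k := ⟨E - (4 * d * ρ + 2 * ρ + 1), by omega⟩
  have h5 : (4 * d * ρ + 1 + k) * y ≤ ρ * ρ * d := by nlinarith
  have h6 : 4 * y ≤ ρ := by
    by_contra hc
    have hc' : ρ + 1 ≤ 4 * y := by omega
    have hy0 : 0 < y := by omega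
    have : d * ρ * (ρ + 1) ≤ d * ρ * (4 * y) := Nat.mul_le_mul_left _ hc'
    nlinarith [Nat.zero_le (k * y), Nat.zero_le (d * ρ)]
  have h7 : (4 * d * ρ + ρ + 1 + k) * x ≤ r * (ρ * d + y) := by nlinarith
  have h8 : 4 * x < r := by
    by_contra hc
    have hc' : r ≤ 4 * x := by omega
    have a1 : (4 * d * ρ + ρ + 1 + k) * r ≤ (4 * d * ρ + ρ + 1 + k) * (4 * x) :=
      Nat.mul_le_mul_left _ hc'
    have a2 : r * (4 * y) ≤ r * ρ := Nat.mul_le_mul_left _ h6
    nlinarith [Nat.zero_le (k * r)]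
  omega

end H59CVP
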