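import Pool.Agent.P.MP_b0c4db_lc.H59.Shift

/-!
# Moment functionals
-/

namespace H59CVP

open Polynomial Finset

section ring
variable {R : Type*} [CommRing R]

/-- the sequence `N 0, …, N J` read as the coefficients of `T^J, …, T^0`. -/
noncomputable def Sq (N : ℕ → R) (J : ℕ) : R[X] := ∑ j ∈ range (J + 1), monomial (J - j) (N j)

theorem Sq_coeff (N : ℕ → R) (J i : ℕ) : (Sq N J).coeff i = if i ≤ J then N (J - i) else 0 := by
  simp only [Sq, finsetSum_coeff, coeff_monomial]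
  split_ifs with h
  · rw [Finset.sum_eq_single (J - i)]
    · rw [if_pos (by omega)]
    · intro j hj hne
      rw [if_neg (by have := mem_range.mp hj; omega)]
    · intro hn; exact absurd (mem_range.mpr (by omega)) hn
  · exact Finset.sum_eq_zero fun j _ => if_neg (by omega)

theorem Sq_natDegree (N : ℕ → R) (J : ℕ) : (Sq N J).natDegree ≤ J := by
  rw [natDegree_le_iff_coeff_eq_zero]
  intro i hi
  rw [Sq_coeff, if_neg (by omega)]

theorem X_pow_mul_Sq (N : ℕ → R) (J j : ℕ) (hj : j ≤ J) : (X ^ j * Sq N J).coeff J = N j := by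
  rw [coeff_X_pow_mul', if_pos hj, Sq_coeff, if_pos (by omega)]
  congr 1; omega

theorem lin_ext (l l' : R[X] →ₗ[R] R) (J : ℕ) (h : ∀ j ≤ J, l (X ^ j) = l' (X ^ j)) (Φ : R[X])
    (hΦ : Φ.natDegree ≤ J) : l Φ = l' Φ := by
  rw [as_sum_range_C_mul_X_pow' Φ (Nat.lt_succ_of_le hΦ), map_sum, map_sum]
  apply Finset.sum_congr rfl
  intro j hj
  rw [← smul_eq_C_mul, map_smul, map_smul, h j (by have := mem_range.mp hj; omega)]

/-- the functional `Φ ↦ (Φ S).coeff J`. -/
noncomputable def fnl (S : R[X]) (J : ℕ) : R[X] →ₗ[R] R := lcoeff R J ∘ₗ LinearMap.mulRight R S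

theorem fnl_apply (S : R[X]) (J : ℕ) (Φ : R[X]) : fnl S J Φ = (Φ * S).coeff J := rfl

theorem ann_iff [IsDomain R] (S : R[X]) (J b : ℕ) (Φ : R[X]) :
    Ann S J b Φ ↔ ∀ i, i + b ≤ J → fnl S J (X ^ i * Φ) = 0 := by
  constructor
  · intro h i hi
    rw [fnl_apply, mul_assoc, coeff_X_pow_mul', if_pos (by omega)]
    exact h _ (by omega) (by omega)
  · intro h i hi hi'
    have := h (J - i) (by omega)
    rw [fnl_apply, mul_assoc, coeff_X_pow_mul', if_pos (by omega)] at this
    rwa [show J - (J - i) = i by omega] at this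

theorem lin_mul_zero (l : R[X] →ₗ[R] R) (J b : ℕ) (Φ : R[X])
    (h : ∀ i, i + b ≤ J → l (X ^ i * Φ) = 0) (Ψ : R[X]) (hΨ : Ψ.natDegree + b ≤ J) :
    l (Ψ * Φ) = 0 :=
  lin_ext (l ∘ₗ LinearMap.mulRight R Φ) 0 Ψ.natDegree (fun j hj => h j (by omega)) Ψ le_rfl

end ring

variable {F : Type*} [Field F]

theorem WD_Sq (N : ℕ → F[X]) (J d : ℕ) (hN : ∀ j ≤ J, (N j).natDegree ≤ j * d) :
    WD d (Sq N J) (J * d) := by
  intro i hi
  rw [Sq_coeff] at hi ⊢
  split_ifs at hi ⊢ with h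
  · have := hN (J - i) (by omega)
    have e : J * d = (J - i) * d + i * d := by rw [← add_mul]; congr 1; omega
    omega
  · exact absurd rfl hi

theorem WD_lin (α u : F) (d : ℕ) : WD d (lin α u) (d + 1) := by
  intro j hj
  rw [lin, coeff_add, coeff_C_mul, coeff_X, coeff_C] at hj ⊢
  rcases j with _ | _ | j
  · simp
  · simp; omega
  · simp at hj

theorem WD_C (d : ℕ) (c : F[X]) : WD d (C c : F[X][X]) c.natDegree := by
  intro j hj
  rw [coeff_C] at hj ⊢
  split_ifs at hj ⊢ with h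
  · simp [h]
  · exact absurd rfl hj

theorem WD_sum {ι : Type*} (s : Finset ι) (f : ι → F[X][X]) (d w : ℕ)
    (h : ∀ i ∈ s, WD d (f i) w) : WD d (∑ i ∈ s, f i) w := by
  rw [WD_iff]
  intro j i hi
  rw [finsetSum_coeff, finsetSum_coeff]
  exact Finset.sum_eq_zero fun k hk => WD_iff.mp (h k hk) j i hi

/-- the moment functional attached to moments `N` about `(α, u)`. -/
noncomputable def mom (α u : F) (N : ℕ → F[X]) (J : ℕ) : F[X][X] →ₗ[F[X]] F[X] :=
  fnl (Sq N J) J ∘ₗ (aeval (lin α u) : F[X][X] →ₐ[F[X]] F[X][X]).toLinearMap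

theorem mom_apply (α u : F) (N : ℕ → F[X]) (J : ℕ) (Φ : F[X][X]) :
    mom α u N J Φ = fnl (Sq N J) J (Φ.comp (lin α u)) := by
  rw [comp_eq_aeval]; rfl

theorem sub_comp_lin (α u : F) :
    (X - C (C u) : F[X][X]).comp (lin α u) = C (X - C α) * X := by
  simp [lin]

theorem mom_natDegree (α u : F) (N : ℕ → F[X]) (J d D : ℕ)
    (hN : ∀ j ≤ J, (N j).natDegree ≤ j * d) (Φ : F[X][X]) (hΦ : Φ.natDegree ≤ J)
    (hD : ∀ j, (Φ.coeff j).natDegree ≤ D) : (mom α u N J Φ).natDegree ≤ D + J * (d + 1) := by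
  have h1 : WD d (Φ.comp (lin α u)) (D + J * (d + 1)) := by
    rw [comp_eq_sum_left, Polynomial.sum]
    apply WD_sum
    intro j hj
    refine ((WD_C d _).mul ((WD_lin α u d).pow j)).mono ?_
    have : j ≤ J := (le_natDegree_of_mem_supp j hj).trans hΦ
    exact Nat.add_le_add (hD j) (Nat.mul_le_mul_right _ this)
  have h2 := h1.mul (WD_Sq N J d hN)
  rw [mom_apply, fnl_apply]
  by_cases hz : (Φ.comp (lin α u) * Sq N J).coeff J = 0
  · rw [hz]; simp
  · have := h2 J hz
    omega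

theorem mom_eval [Fintype F] (α u : F) (N : ℕ → F[X]) (J : ℕ) (μ : F → F → F)
    (hN : ∀ j ≤ J, ∀ t, ∑ y, μ t y * (y - u) ^ j = (t - α) ^ j * (N j).eval t)
    (Φ : F[X][X]) (hΦ : Φ.natDegree ≤ J) (t : F) :
    (mom α u N J Φ).eval t = ∑ y, μ t y * Φ.evalEval t y := by
  have e := sum_taylor_eq Φ (C u)
  rw [Polynomial.sum] at e
  have hs : ∀ j ∈ (taylor (C u) Φ).support, j ≤ J := fun j hj =>
    (le_natDegree_of_mem_supp j hj).trans (by rw [natDegree_taylor]; exact hΦ)
  generalize (taylor (C u) Φ).support = s at e hs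
  generalize (taylor (C u) Φ) = Ψ at e
  rw [← e, map_sum, eval_finsetSum]
  simp only [evalEval_finsetSum, Finset.mul_sum]
  rw [Finset.sum_comm]
  apply Finset.sum_congr rfl
  intro j hj
  have hj' := hs j hj
  rw [← smul_eq_C_mul, map_smul, mom_apply, pow_comp, sub_comp_lin, mul_pow, ← C_pow,
    ← smul_eq_C_mul, map_smul, fnl_apply, X_pow_mul_Sq N J j hj', smul_eq_mul, smul_eq_mul,
    eval_mul, eval_mul, eval_pow, eval_sub, eval_X, eval_C, ← hN j hj' t, Finset.mul_sum]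
  apply Finset.sum_congr rfl
  intro y _
  rw [smul_eq_C_mul, evalEval_mul, evalEval_C, evalEval_pow, evalEval_sub, evalEval_X,
    evalEval_C, eval_C]
  ring

theorem exists_vanishing (Z : Finset (F × F)) (D e : ℕ) (h : Z.card < (D + 1) * (e + 1)) :
    ∃ Q : F[X][X], Q ≠ 0 ∧ Q.natDegree ≤ e ∧ (∀ j, (Q.coeff j).natDegree ≤ D) ∧
      ∀ z ∈ Z, Q.evalEval z.1 z.2 = 0 := by
  classical
  let A : Matrix Z (Fin (D + 1) × Fin (e + 1)) F :=
    Matrix.of fun z k => z.1.1 ^ (k.1 : ℕ) * z.1.2 ^ (k.2 : ℕ)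
  have hk := LinearMap.ker_ne_bot_of_finrank_lt (f := A.mulVecLin) (by simpa using h)
  obtain ⟨c, hc, hc0⟩ := Submodule.exists_mem_ne_zero_of_ne_bot hk
  let q : Fin (e + 1) → F[X] := fun j => ∑ i : Fin (D + 1), monomial i (c (i, j))
  have hq : ∀ (j : Fin (e + 1)) (i : Fin (D + 1)), (q j).coeff i = c (i, j) := by
    intro j i
    simp only [q, finsetSum_coeff, coeff_monomial]
    rw [Finset.sum_eq_single i]
    · simp
    · intro i' _ hne
      exact if_neg fun h => hne (Fin.ext h)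
    · intro hn; exact absurd (mem_univ _) hn
  have hqd : ∀ j, (q j).natDegree ≤ D := fun j =>
    natDegree_sum_le_of_forall_le _ _ fun i _ =>
      (natDegree_monomial_le _).trans (Nat.lt_succ_iff.mp i.2)
  let Q : F[X][X] := ∑ j : Fin (e + 1), monomial j (q j)
  have hQ : ∀ j : Fin (e + 1), Q.coeff j = q j := by
    intro j
    simp only [Q, finsetSum_coeff, coeff_monomial]
    rw [Finset.sum_eq_single j]
    · simp
    · intro i' _ hne
      exact if_neg fun h => hne (Fin.ext h)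
    · intro hn; exact absurd (mem_univ _) hn
  have hQd : Q.natDegree ≤ e :=
    natDegree_sum_le_of_forall_le _ _ fun i _ =>
      (natDegree_monomial_le _).trans (Nat.lt_succ_iff.mp i.2)
  refine ⟨Q, ?_, hQd, ?_, ?_⟩
  · intro hz
    apply hc0
    funext k
    have h1 := hQ k.2
    rw [hz, coeff_zero] at h1
    have h2 := hq k.2 k.1
    rw [← h1, coeff_zero] at h2
    exact h2.symm
  · intro j
    by_cases hj : j < e + 1
    · have := hQ ⟨j, hj⟩
      rw [this]; exact hqd _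
    · rw [coeff_eq_zero_of_natDegree_lt (by omega)]; simp
  · intro z hz
    have h1 := congrFun (LinearMap.mem_ker.mp hc) ⟨z, hz⟩
    simp only [Matrix.mulVecLin_apply, Matrix.mulVec, dotProduct, A, Matrix.of_apply,
      Pi.zero_apply, Fintype.sum_prod_type] at h1
    rw [Finset.sum_comm] at h1
    rw [← h1]
    simp only [Q, q, evalEval, eval_finsetSum, eval_monomial, eval_mul, eval_pow, eval_C,
      Finset.sum_mul]
    refine Finset.sum_congr rfl fun j _ => Finset.sum_congr rfl fun i _ => by ring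

end H59CVP
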