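import Pool.Agent.P.MP_b0c4db_lc.Yes
import Pool.Agent.P.MP_b0c4db_lc.H59.Abs

/-! Soundness: a short solution of the system gives a satisfying assignment. -/

namespace Pool.Agent.P.MP_b0c4db_lc

open Finset Polynomial YesAux

namespace NoAux

theorem dual (p : ℕ) [Fact p.Prime] (m : ZMod p → ZMod p) (α : ZMod p) (d j : ℕ)
    (hj : j + j * d + 1 < p)
    (h : ∀ e < p, (p ≤ e + j ∨ e + j + j * d + 1 < p) → ∑ t, m t * (t - α) ^ e = 0) :
    ∃ N : (ZMod p)[X], N.natDegree ≤ j * d ∧ ∀ t, m t = (t - α) ^ j * N.eval t := by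
  have h' : ∀ e < p, (p ≤ e + j ∨ e + j + j * d + 1 < p) → ∑ s, m (s + α) * s ^ e = 0 := by
    intro e he hc
    have := h e he hc
    rw [← Equiv.sum_comp (Equiv.addRight α)] at this
    simpa using this
  set G : (ZMod p)[X] := ∑ w, C (m (w + α)) * (1 - (X + C (-w)) ^ (p - 1)) with hG
  have hev : ∀ s, G.eval s = m (s + α) := by
    intro s
    simp only [hG, eval_finsetSum, eval_mul, eval_C, eval_sub, eval_one, eval_pow, eval_add, eval_X]
    rw [Finset.sum_eq_single s]
    · rw [add_neg_cancel, zero_pow (by omega), sub_zero, mul_one]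
    · intro w _ hw
      rw [ZMod.pow_card_sub_one_eq_one (by rw [← sub_eq_add_neg]; exact sub_ne_zero.mpr hw.symm),
        sub_self, mul_zero]
    · intro hn; exact absurd (mem_univ _) hn
  have hco : ∀ n, (n < j ∨ j + j * d < n) → G.coeff n = 0 := by
    intro n hn
    have e1 : G.coeff n = (∑ w, m (w + α) * w ^ 0) * (1 : (ZMod p)[X]).coeff n -
        (∑ w, m (w + α) * w ^ (p - 1 - n)) * ((-1) ^ (p - 1 - n) * ((p - 1).choose n : ZMod p)) := by
      rw [hG, finsetSum_coeff, Finset.sum_mul, Finset.sum_mul, ← Finset.sum_sub_distrib]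
      apply Finset.sum_congr rfl
      intro w _
      rw [coeff_C_mul, coeff_sub, coeff_X_add_C_pow, neg_pow]
      ring
    rw [e1, h' 0 (by omega) (by omega), zero_mul, zero_sub, neg_eq_zero]
    by_cases hp : n ≤ p - 1
    · rw [h' _ (by omega) (by omega), zero_mul]
    · rw [Nat.choose_eq_zero_of_lt (by omega)]; simp
  obtain ⟨G₁, hG₁⟩ : X ^ j ∣ G := X_pow_dvd_iff.mpr fun n hn => hco n (Or.inl hn)
  refine ⟨taylor (-α) G₁, ?_, fun t => ?_⟩
  · rw [natDegree_taylor, natDegree_le_iff_coeff_eq_zero]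
    intro n hn
    have := hco (n + j) (Or.inr (by omega))
    rwa [hG₁, coeff_X_pow_mul] at this
  · have := hev (t - α)
    rw [sub_add_cancel, hG₁, eval_mul, eval_pow, eval_X] at this
    rw [← this, taylor_eval, sub_eq_add_neg]

theorem sum_range_val {M : Type*} [AddCommMonoid M] (p : ℕ) [NeZero p] (φ : ℕ → M) :
    ∑ t ∈ range p, φ t = ∑ t : ZMod p, φ t.val := by
  refine Finset.sum_bij' (fun t _ => (t : ZMod p)) (fun t _ => t.val) (fun _ _ => mem_univ _)
    (fun t _ => mem_range.mpr (ZMod.val_lt t)) (fun t ht => ?_) (fun t _ => ?_) (fun t ht => ?_)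
  · exact ZMod.val_cast_of_lt (mem_range.mp ht)
  · exact ZMod.natCast_zmod_val t
  · rw [ZMod.val_cast_of_lt (mem_range.mp ht)]

/-- the allowed options of constraint `i` -/
def opts (q : ℕ) (l : List Cn) (i : ℕ) : Finset ℕ :=
  (range (l.length * (q * q))).filter fun κ => ok q l κ = true ∧ κ / (q * q) = i

variable {q : ℕ} {l : List Cn} {p d J : ℕ} {μ : ℕ → ℕ → ℕ → ℤ}

theorem row1 [NeZero p] (h : Sol q l p d J μ) {κ : ℕ} (hκ : κ < l.length * (q * q)) (b : Bool)
    {j e : ℕ} (hj : j < p) (he : e < p) (hact : act p d J j e = true) :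
    ∑ t : ZMod p, (∑ y : ZMod p, (μ κ t.val y.val : ZMod p) * (y - (vl q κ b : ℕ)) ^ j) *
      (t - (pt q l κ b : ℕ)) ^ e = 0 := by
  set k := 2 * κ + (if b = true then 0 else 1) with hk
  have h1 : k < 2 * (l.length * (q * q)) := by rw [hk]; split_ifs <;> omega
  have h2 : k / 2 = κ := by rw [hk]; split_ifs <;> omega
  have h3 : decide (k % 2 = 0) = b := by
    rw [hk]; cases b <;> simp [Nat.add_mod]
  have := h k (by omega) j hj e he
  rw [rhs, ind_decide, if_neg (by omega), sub_zero, Finset.sum_eq_single κ] at this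
  · rw [← ZMod.intCast_zmod_eq_zero_iff_dvd, sum_range_val] at this
    rw [← this]
    push_cast
    apply Finset.sum_congr rfl
    intro t _
    rw [sum_range_val, Finset.sum_mul]
    apply Finset.sum_congr rfl
    intro y _
    simp only [coef, h1, h2, h3, hact, decide_true, cond_true, Bool.and_true, ind]
    push_cast
    simp only [ZMod.natCast_zmod_val]
    ring
  · intro κ' _ hne
    refine Finset.sum_eq_zero fun t _ => Finset.sum_eq_zero fun y _ => ?_
    simp [coef, h1, h2, hne.symm, ind]
  · intro hn; exact absurd (mem_range.mpr hκ) hn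

theorem row2 (h : Sol q l p d J μ) {i : ℕ} (hi : i < l.length) {t y : ℕ} (ht : t < p)
    (hy : y < p) :
    ∑ κ ∈ opts q l i, (μ κ t y : ZMod p) = ∑ κ ∈ opts q l 0, (μ κ t y : ZMod p) := by
  have := h (2 * (l.length * (q * q)) + i) (by omega) t ht y hy
  rw [rhs, ind_decide, if_neg (by omega), sub_zero] at this
  have e : ∑ κ ∈ range (l.length * (q * q)), ∑ t' ∈ range p, ∑ y' ∈ range p,
      coef q l p d J (2 * (l.length * (q * q)) + i) t y κ t' y' * μ κ t' y' =
      ∑ κ ∈ opts q l i, μ κ t y - ∑ κ ∈ opts q l 0, μ κ t y := by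
    rw [opts, opts, Finset.sum_filter, Finset.sum_filter, ← Finset.sum_sub_distrib]
    apply Finset.sum_congr rfl
    intro κ _
    have c1 : ¬ (2 * (l.length * (q * q)) + i < 2 * (l.length * (q * q))) := by omega
    have c2 : 2 * (l.length * (q * q)) + i < 2 * (l.length * (q * q)) + l.length := by omega
    have c3 : (κ / (q * q) + 2 * (l.length * (q * q)) = 2 * (l.length * (q * q)) + i) ↔
        κ / (q * q) = i := by omega
    simp only [coef, c1, c2, c3, decide_true, decide_false, cond_true, cond_false]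
    rw [Finset.sum_eq_single t, Finset.sum_eq_single y]
    · simp only [decide_true, Bool.true_and, ind_decide]
      cases ok q l κ
      · simp [ind]
      · simp only [ind, cond_true, true_and]
        split_ifs <;> ring
    · intro y' _ hne; simp [hne, ind]
    · intro hn; exact absurd (mem_range.mpr hy) hn
    · intro t' _ hne
      exact Finset.sum_eq_zero fun y' _ => by simp [hne, ind]
    · intro hn; exact absurd (mem_range.mpr ht) hn
  rw [e, ← ZMod.intCast_zmod_eq_zero_iff_dvd] at this
  push_cast at this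
  exact sub_eq_zero.mp this

theorem row3 [NeZero p] (h : Sol q l p d J μ) {t : ℕ} (ht : t < p) :
    ∑ y : ZMod p, ∑ κ ∈ opts q l 0, (μ κ t y.val : ZMod p) = 1 := by
  have := h (2 * (l.length * (q * q)) + l.length) (by omega) t ht 0 (by omega)
  rw [rhs, ind_decide, if_pos le_rfl] at this
  have e : ∑ κ ∈ range (l.length * (q * q)), ∑ t' ∈ range p, ∑ y' ∈ range p,
      coef q l p d J (2 * (l.length * (q * q)) + l.length) t 0 κ t' y' * μ κ t' y' =
      ∑ y ∈ range p, ∑ κ ∈ opts q l 0, μ κ t y := by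
    rw [Finset.sum_comm (s := range p) (t := opts q l 0), opts, Finset.sum_filter]
    apply Finset.sum_congr rfl
    intro κ _
    have c1 : ¬ (2 * (l.length * (q * q)) + l.length < 2 * (l.length * (q * q))) := by omega
    simp only [coef, c1, lt_irrefl, decide_false, cond_false]
    rw [Finset.sum_eq_single t]
    · split_ifs with hc
      · exact Finset.sum_congr rfl fun y _ => by simp [hc.1, hc.2, ind]
      · refine Finset.sum_eq_zero fun y _ => ?_
        rw [not_and_or] at hc
        rcases hc with hc | hc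
        · simp [hc, ind]
        · simp only [hc, decide_false, Bool.and_false, ind, cond_false, zero_mul]
    · intro t' _ hne
      exact Finset.sum_eq_zero fun y' _ => by simp [hne, ind]
    · intro hn; exact absurd (mem_range.mpr ht) hn
  rw [e, ← ZMod.intCast_zmod_eq_zero_iff_dvd, sum_range_val] at this
  push_cast at this
  exact sub_eq_zero.mp this

theorem card_le_nrm [NeZero p] (A : ℕ) (μ : ℕ → ℕ → ℕ → ℤ) :
    (((univ : Finset (ZMod p × ZMod p)).filter
      fun z => ∃ κ ∈ range A, μ κ z.1.val z.2.val ≠ 0).card : ℤ) ≤ nrm A p μ := by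
  have e : nrm A p μ = ∑ z : ZMod p × ZMod p, ∑ κ ∈ range A, μ κ z.1.val z.2.val ^ 2 := by
    rw [nrm, Finset.sum_comm (s := univ), Finset.sum_congr rfl]
    intro κ _
    rw [Fintype.sum_prod_type, sum_range_val]
    exact Finset.sum_congr rfl fun t _ => sum_range_val p _
  rw [e, card_filter]
  push_cast
  apply Finset.sum_le_sum
  intro z _
  split_ifs with hz
  · obtain ⟨κ, hκ, hne⟩ := hz
    exact le_trans (Int.add_one_le_iff.mpr (by positivity) : (0 : ℤ) + 1 ≤ μ κ z.1.val z.2.val ^ 2)
      (Finset.single_le_sum (f := fun κ => μ κ z.1.val z.2.val ^ 2) (fun _ _ => sq_nonneg _) hκ)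
  · exact Finset.sum_nonneg fun _ _ => sq_nonneg _

end NoAux

open NoAux

theorem no59 : S_No := by
  intro q l p d J D e a hp hl hqp hD hpJ haJ ha μ hsol hn
  have := Fact.mk hp
  have hm : 0 < l.length := List.length_pos_iff.mpr hl
  have hq : 0 < q := by
    rcases Nat.eq_zero_or_pos q with rfl | h
    · have h1 := row3 hsol hp.pos
      simp [opts] at h1
    · exact h
  have hA : 1 ≤ l.length * (q * q) := Nat.mul_pos hm (Nat.mul_pos hq hq)
  have hN : ∀ κ b j, ∃ N : (ZMod p)[X], κ < l.length * (q * q) → j ≤ J → N.natDegree ≤ j * d ∧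
      ∀ t : ZMod p, ∑ y : ZMod p, (μ κ t.val y.val : ZMod p) * (y - (vl q κ b : ℕ)) ^ j =
        (t - (pt q l κ b : ℕ)) ^ j * N.eval t := by
    intro κ b j
    by_cases hc : κ < l.length * (q * q) ∧ j ≤ J
    · have h3 : j * (d + 1) ≤ J * (d + 1) := Nat.mul_le_mul_right _ hc.2
      rw [mul_add, mul_one] at h3
      obtain ⟨N, hN⟩ := dual p _ (pt q l κ b : ℕ) d j (by omega) fun e' he' hc' =>
        row1 hsol hc.1 b (j := j) (by omega) he' (by
          simp only [act, Bool.and_eq_true, Bool.or_eq_true, decide_eq_true_eq]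
          exact ⟨hc.2, hc'⟩)
      exact ⟨N, fun _ _ => hN⟩
    · exact ⟨0, fun h1 h2 => absurd ⟨h1, h2⟩ hc⟩
  choose N hN using hN
  have hcard := card_le_nrm (p := p) (l.length * (q * q)) μ
  obtain ⟨val, hval⟩ := H59CVP.abs_no (F := ZMod p) (κ := Fin l.length)
    (fun κ t y => (μ κ t.val y.val : ZMod p)) (fun κ b => (pt q l κ b : ℕ))
    (fun κ b => (vl q κ b : ℕ)) (fun i => opts q l i)
    (fun t y => ∑ κ ∈ opts q l 0, (μ κ t.val y.val : ZMod p)) N J d D e
    (by
      have : 4 * d * e ≤ 4 * (l.length * (q * q)) * d * e := by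
        have := Nat.mul_le_mul_right (4 * d * e) hA
        nlinarith
      omega)
    (by rw [ZMod.card]; exact hpJ)
    (fun k i hi b j hj => hN i b j (mem_range.mp (mem_filter.mp hi).1) hj)
    (fun k t y => row2 hsol k.2 (ZMod.val_lt t) (ZMod.val_lt y))
    (fun t => row3 hsol (ZMod.val_lt t))
    ((univ : Finset (ZMod p × ZMod p)).filter
      fun z => ∃ κ ∈ range (l.length * (q * q)), μ κ z.1.val z.2.val ≠ 0)
    (by exact_mod_cast hcard.trans_lt hn)
    (fun k i hi t y hne => mem_filter.mpr ⟨mem_univ _, i, (mem_filter.mp hi).1,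
      fun hz => hne (by simp only [hz, Int.cast_zero])⟩)
  refine ⟨fun c => if (val c).val < q then (val c).val else 0, fun c => ?_, fun f hf => ?_⟩
  · beta_reduce
    split_ifs with h
    · exact h
    · exact hq
  · obtain ⟨i, hi, rfl⟩ := List.getElem_of_mem hf
    obtain ⟨κ, hκ, hb⟩ := hval ⟨i, hi⟩
    obtain ⟨-, hok, hdiv⟩ := mem_filter.mp hκ
    have hcon : con q l κ = l[i] := by
      rw [con, hdiv]; exact List.getD_eq_getElem _ _ hi
    have hv : ∀ b, vl q κ b < q := by
      intro b; cases b <;> exact Nat.mod_lt _ hq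
    have key : ∀ b, (if (val (pt q l κ b : ℕ)).val < q then (val (pt q l κ b : ℕ)).val else 0) =
        vl q κ b := by
      intro b
      rw [hb b, ZMod.val_cast_of_lt ((hv b).trans_le hqp), if_pos (hv b)]
    have k1 := key true
    have k2 := key false
    simp only [pt, cond_true, cond_false, hcon] at k1 k2
    beta_reduce
    rw [k1, k2]
    simp only [ok, hcon, Bool.not_eq_true', Bool.and_eq_false_imp, decide_eq_true_eq,
      decide_eq_false_iff_not] at hok
    tauto

end Pool.Agent.P.MP_b0c4db_lc
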