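import Pool.Agent.P.MP_b0c4db_lc.H59.Res

/-!
# Padé pairs (helper59, MP_b0c4db_lc)
-/

namespace H59CVP

open Polynomial

section ring
variable {A : Type*} [CommRing A]

theorem coeff_mod_X_pow [Nontrivial A] (P : A[X]) (n i : ℕ) :
    (P %ₘ X ^ n).coeff i = if i < n then P.coeff i else 0 := by
  have hm : (X ^ n : A[X]).Monic := monic_X_pow n
  split_ifs with h
  · have e := modByMonic_add_div P (X ^ n)
    have : P.coeff i = (P %ₘ X ^ n + X ^ n * (P /ₘ X ^ n)).coeff i := by rw [e]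
    rw [this, coeff_add, coeff_X_pow_mul', if_neg (by omega), add_zero]
  · apply coeff_eq_zero_of_degree_lt
    have := degree_modByMonic_lt P hm
    rw [degree_X_pow] at this
    exact this.trans_le (by exact_mod_cast (by omega : n ≤ i))

theorem coeff_mul_eq_zero (P Q : A[X]) (a b k : ℕ) (hP : P.natDegree ≤ a)
    (hQ : ∀ i, b ≤ i → Q.coeff i = 0) (hk : a + b ≤ k) : (P * Q).coeff k = 0 := by
  rw [coeff_mul]
  apply Finset.sum_eq_zero
  intro x hx
  have hx' := Finset.HasAntidiagonal.mem_antidiagonal.mp hx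
  by_cases h : b ≤ x.2
  · rw [hQ _ h, mul_zero]
  · rw [coeff_eq_zero_of_natDegree_lt (by omega), zero_mul]

theorem natDegree_le_of_coeff (P : A[X]) (n : ℕ) (h : ∀ i, n ≤ i → P.coeff i = 0) :
    P.natDegree ≤ n :=
  natDegree_le_iff_coeff_eq_zero.mpr fun i hi => h i hi.le

/-- numerator of a Padé pair has degree below that of the denominator. -/
theorem pade_U (Λ S U V : A[X]) (J b ρ : ℕ) (h : Λ * S = U * X ^ (J + 1) + V)
    (hV : ∀ i, b ≤ i → V.coeff i = 0) (hb : b ≤ J + 1) (hS : S.natDegree ≤ J)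
    (hΛ : Λ.natDegree ≤ ρ) (k : ℕ) (hk : ρ ≤ k) : U.coeff k = 0 := by
  have h1 : (Λ * S).coeff (k + (J + 1)) = 0 :=
    coeff_eq_zero_of_natDegree_lt (natDegree_mul_le.trans_lt (by omega))
  rw [h, coeff_add, coeff_mul_X_pow, hV _ (by omega), add_zero] at h1
  exact h1

theorem pade_W [Nontrivial A] (Λ S U V Φ : A[X]) (J b E : ℕ) (h : Λ * S = U * X ^ (J + 1) + V)
    (hV : ∀ i, b ≤ i → V.coeff i = 0) (hb : E + b ≤ J + 1) (hΦ : Φ.natDegree ≤ E) (k : ℕ) :
    (Φ * U - Λ * ((Φ * S) /ₘ X ^ (J + 1))).coeff k =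
      (Λ * ((Φ * S) %ₘ X ^ (J + 1))).coeff (k + (J + 1)) := by
  have e := modByMonic_add_div (Φ * S) (X ^ (J + 1))
  have h1 : (Φ * U - Λ * ((Φ * S) /ₘ X ^ (J + 1))) * X ^ (J + 1) =
      Λ * ((Φ * S) %ₘ X ^ (J + 1)) - Φ * V := by
    have : Λ * ((Φ * S) %ₘ X ^ (J + 1)) =
        Φ * (Λ * S) - Λ * (X ^ (J + 1) * ((Φ * S) /ₘ X ^ (J + 1))) := by
      linear_combination Λ * e
    rw [this, h]; ring
  rw [← coeff_mul_X_pow _ (J + 1) k, h1, coeff_sub,
    coeff_mul_eq_zero Φ V E b _ hΦ hV (by omega), sub_zero]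

theorem key_of_pade [IsDomain A] (Λ S U V f Y : A[X]) (J b E : ℕ) (z : A)
    (h : Λ * S = U * X ^ (J + 1) + V) (hV : ∀ i, b ≤ i → V.coeff i = 0) (hb : E + b ≤ J + 1)
    (hS : S.natDegree ≤ J) (hΛ : Λ ≠ 0) (hf : Λ = f * Y) :
    ∃ W : A[X], (∀ k, W.coeff k =
        (Λ * (((X - C z) ^ E * S) %ₘ X ^ (J + 1))).coeff (k + (J + 1))) ∧
      (-1) ^ (f.natDegree * E) * f.eval z ^ E * resultant f U f.natDegree Λ.natDegree =
        f.leadingCoeff ^ E * resultant f W f.natDegree Λ.natDegree := by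
  have hΦ : ((X - C z) ^ E : A[X]).natDegree ≤ E := by
    refine natDegree_pow_le.trans ?_
    have : (X - C z : A[X]).natDegree ≤ 1 := natDegree_X_sub_C_le z
    nlinarith
  set Φ : A[X] := (X - C z) ^ E with hΦd
  set Q := (Φ * S) /ₘ X ^ (J + 1) with hQ
  have hW := pade_W Λ S U V Φ J b E h hV hb hΦ
  refine ⟨Φ * U - Λ * Q, hW, ?_⟩
  have hWd : (Φ * U - Λ * Q).natDegree ≤ Λ.natDegree := by
    apply natDegree_le_of_coeff
    intro i hi
    rw [hW]
    apply coeff_mul_eq_zero _ _ Λ.natDegree (J + 1) _ le_rfl _ (by omega)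
    intro j hj
    rw [coeff_mod_X_pow, if_neg (by omega)]
  have hUd : U.natDegree ≤ Λ.natDegree :=
    natDegree_le_of_coeff _ _ (pade_U Λ S U V J b _ h hV (by omega) hS le_rfl)
  have hf0 : f ≠ 0 := by rintro rfl; simp at hf; exact hΛ hf
  have hY0 : Y ≠ 0 := by rintro rfl; simp at hf; exact hΛ hf
  have hid : Φ * U = (Φ * U - Λ * Q) + f * (Y * Q) := by rw [hf]; ring
  refine res_key f U _ (Y * Q) z E _ _ le_rfl hUd hWd ?_ hid
  by_cases hq : Y * Q = 0
  · rw [hq, natDegree_zero, hf, natDegree_mul hf0 hY0]; omega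
  · have e1 : f * (Y * Q) = Φ * U - (Φ * U - Λ * Q) := by rw [hf]; ring
    have e2 : (f * (Y * Q)).natDegree ≤ E + Λ.natDegree := by
      rw [e1]
      refine (natDegree_sub_le _ _).trans (max_le (natDegree_mul_le.trans (by omega)) (by omega))
    rw [natDegree_mul hf0 hq] at e2
    omega

end ring

end H59CVP
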