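import Pool.Agent.P.MP_b0c4db_lc.H59.Core

/-!
# Reduced Padé pairs; the base step and the local step
-/

namespace H59CVP

open Polynomial

section frac
variable {R K : Type*} [CommRing R] [IsDomain R] [IsGCDMonoid R] [Field K] [Algebra R K]
  [IsFractionRing R K]

theorem exists_prim_rep (p : K[X]) :
    ∃ (q : R[X]) (u : K), q.IsPrimitive ∧ p = C u * q.map (algebraMap R K) := by
  let : NormalizedGCDMonoid R := Nonempty.some inferInstance
  obtain ⟨c, c0, hc⟩ := IsLocalization.integerNormalization_spec (nonZeroDivisors R) p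
  set q := IsLocalization.integerNormalization (nonZeroDivisors R) p
  have hc0 : algebraMap R K c ≠ 0 := by
    rw [Ne, IsFractionRing.to_map_eq_zero_iff]
    exact nonZeroDivisors.ne_zero c0
  refine ⟨q.primPart, (algebraMap R K c)⁻¹ * algebraMap R K q.content, q.isPrimitive_primPart, ?_⟩
  have h1 : q.map (algebraMap R K) =
      C (algebraMap R K q.content) * q.primPart.map (algebraMap R K) := by
    conv_lhs => rw [q.eq_C_content_mul_primPart, Polynomial.map_mul, map_C]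
  rw [C_mul, mul_assoc, ← h1, hc, Algebra.smul_def, Polynomial.algebraMap_apply, ← mul_assoc, ← C_mul,
    inv_mul_cancel₀ hc0, C_1, one_mul]

theorem coprime_map (Λ U : R[X]) (hΛ : Λ ≠ 0) (h : IsRelPrime Λ U) :
    IsCoprime (Λ.map (algebraMap R K)) (U.map (algebraMap R K)) := by
  apply IsRelPrime.isCoprime
  intro p h1 h2
  obtain ⟨q, u, hq, rfl⟩ := exists_prim_rep (R := R) p
  have hu : u ≠ 0 := by
    rintro rfl
    rw [C_0, zero_mul, zero_dvd_iff] at h1
    exact (Polynomial.map_ne_zero_iff (IsFractionRing.injective R K)).mpr hΛ h1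
  have a1 := hq.dvd_of_fraction_map_dvd_fraction_map ((Dvd.intro_left _ rfl).trans h1)
  have a2 := hq.dvd_of_fraction_map_dvd_fraction_map ((Dvd.intro_left _ rfl).trans h2)
  exact (isUnit_C.mpr (IsUnit.mk0 u hu)).mul ((h a1 a2).map (mapRingHom (algebraMap R K)))

end frac

section gcd
variable {R : Type*} [CommRing R] [IsDomain R]

theorem res_ne_zero [IsGCDMonoid R] (f Λ U : R[X]) (hf : f ∣ Λ) (hΛ : Λ ≠ 0)
    (hc : IsRelPrime Λ U) (n : ℕ) (hU : U.natDegree ≤ n) : resultant f U f.natDegree n ≠ 0 := by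
  obtain ⟨k, rfl⟩ := le_iff_exists_add.mp hU
  have hf0 : f ≠ 0 := ne_zero_of_dvd_ne_zero hΛ hf
  rw [resultant_add_right_deg _ _ _ _ _ le_rfl]
  refine mul_ne_zero (pow_ne_zero _ (leadingCoeff_ne_zero.mpr hf0)) ?_
  have hinj := IsFractionRing.injective R (FractionRing R)
  have h1 := (coprime_map (K := FractionRing R) Λ U hΛ hc).of_isCoprime_of_dvd_left
    (Polynomial.map_dvd (algebraMap R (FractionRing R)) hf)
  have h2 := resultant_ne_zero _ _ h1
  rw [natDegree_map_eq_of_injective hinj, natDegree_map_eq_of_injective hinj,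
    resultant_map_map] at h2
  intro hz
  rw [hz, map_zero] at h2
  exact h2 rfl

/-- `Φ` annihilates the sequence encoded by `S`. -/
def Ann (S : R[X]) (J b : ℕ) (Φ : R[X]) : Prop := ∀ i, b ≤ i → i ≤ J → (Φ * S).coeff i = 0

theorem Ann.pade {S Φ : R[X]} {J b : ℕ} (h : Ann S J b Φ) :
    ∃ U V : R[X], Φ * S = U * X ^ (J + 1) + V ∧ ∀ i, b ≤ i → V.coeff i = 0 := by
  refine ⟨(Φ * S) /ₘ X ^ (J + 1), (Φ * S) %ₘ X ^ (J + 1), ?_, ?_⟩
  · have e := modByMonic_add_div (Φ * S) (X ^ (J + 1))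
    linear_combination -e
  · intro i hi
    rw [coeff_mod_X_pow]
    split_ifs with hlt
    · exact h i hi (by omega)
    · rfl

theorem reduce [UniqueFactorizationMonoid R] (Q S : R[X]) (J b : ℕ) (hQ : Q ≠ 0)
    (hb : b ≤ J + 1) (h : Ann S J b Q) :
    ∃ Λ U V g : R[X], Q = Λ * g ∧ Λ * S = U * X ^ (J + 1) + V ∧ Λ.IsPrimitive ∧ IsRelPrime Λ U ∧
      ∀ H : R[X], H.natDegree ≤ g.natDegree → ∀ i, b ≤ i → (H * V).coeff i = 0 := by
  obtain ⟨U₀, V₀, h0, hV₀⟩ := h.pade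
  obtain ⟨Λ, U, g, hrel, h1, h2⟩ := UniqueFactorizationMonoid.exists_reduced_factors Q hQ U₀
  have hg : g ≠ 0 := by rintro rfl; rw [zero_mul] at h1; exact hQ h1.symm
  have hV : g * (Λ * S - U * X ^ (J + 1)) = V₀ := by
    rw [← h1, ← h2] at h0
    linear_combination h0
  set V := Λ * S - U * X ^ (J + 1) with hVd
  have hH : ∀ H : R[X], H.natDegree ≤ g.natDegree → ∀ i, b ≤ i → (H * V).coeff i = 0 := by
    intro H hH i hi
    by_cases hz : V = 0
    · rw [hz, mul_zero, coeff_zero]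
    · have hV0 : V₀ ≠ 0 := hV ▸ mul_ne_zero hg hz
      have hlt : V₀.natDegree < b := by
        by_contra hc
        exact leadingCoeff_ne_zero.mpr hV0 (hV₀ _ (by omega))
      rw [← hV, natDegree_mul hg hz] at hlt
      exact coeff_eq_zero_of_natDegree_lt (natDegree_mul_le.trans_lt (by omega))
  refine ⟨Λ, U, V, g, by rw [← h1, mul_comm], by rw [hVd]; ring, ?_, hrel, hH⟩
  intro r hr
  have hU : C r ∣ U := by
    rw [C_dvd_iff_dvd_coeff]
    intro k
    have a1 : r ∣ (Λ * S).coeff (k + (J + 1)) :=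
      (C_dvd_iff_dvd_coeff _ _).mp (hr.mul_right S) _
    have a2 : Λ * S = U * X ^ (J + 1) + V := by rw [hVd]; ring
    have a3 := hH 1 (by simp) (k + (J + 1)) (by omega)
    rw [one_mul] at a3
    rwa [a2, coeff_add, coeff_mul_X_pow, a3, add_zero] at a1
  exact isUnit_C.mp (hrel hr hU)

theorem base_step [UniqueFactorizationMonoid R] (Q S : R[X]) (J b : ℕ) (hQ : Q ≠ 0)
    (hQd : Q.natDegree ≤ b) (hb : 2 * b ≤ J + 1) (hb' : b ≤ J) (h : Ann S J b Q)
    (h1 : S.coeff J ≠ 0) :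
    ∃ (f : R[X]) (k : ℕ) (Q₂ : R[X]), Irreducible f ∧ 0 < f.natDegree ∧ Q = f ^ k * Q₂ ∧
      ¬ Ann S J b Q₂ := by
  obtain ⟨Λ, U, V, g, hQe, hP, hprim, hrel, hH⟩ := reduce Q S J b hQ (by omega) h
  have hV : ∀ i, b ≤ i → V.coeff i = 0 := by
    intro i hi
    have := hH 1 (by simp) i hi
    rwa [one_mul] at this
  have hΛ := hprim.ne_zero
  have hnu : ¬ IsUnit Λ := by
    intro hu
    obtain ⟨c, hc, rfl⟩ := Polynomial.isUnit_iff.mp hu
    have := congrArg (fun P => P.coeff J) hP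
    simp only [coeff_C_mul, coeff_add] at this
    rw [coeff_mul_X_pow', if_neg (by omega), hV J hb', add_zero] at this
    exact mul_ne_zero hc.ne_zero h1 this
  obtain ⟨f, hf, hfd⟩ := WfDvdMonoid.exists_irreducible_factor hnu hΛ
  have hfpos : 0 < f.natDegree := by
    by_contra hc
    have e := eq_C_of_natDegree_eq_zero (show f.natDegree = 0 by omega)
    apply hf.not_isUnit
    rw [e] at hfd ⊢
    exact isUnit_C.mpr (hprim _ hfd)
  obtain ⟨k, Q₂, hnd, hk⟩ := WfDvdMonoid.max_power_factor hQ hf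
  refine ⟨f, k, Q₂, hf, hfpos, hk, fun hA => hnd ?_⟩
  obtain ⟨U₂, V₂, hP₂, hV₂⟩ := hA.pade
  have d1 : Λ.natDegree ≤ b := (natDegree_le_of_dvd ⟨g, hQe⟩ hQ).trans hQd
  have d2 : Q₂.natDegree ≤ b := (natDegree_le_of_dvd (Dvd.intro_left _ hk.symm) hQ).trans hQd
  have e1 : (Λ * U₂ - U * Q₂) * X ^ (J + 1) = Q₂ * V - Λ * V₂ := by
    linear_combination Q₂ * hP - Λ * hP₂
  have e2 : Λ * U₂ - U * Q₂ = 0 := by
    ext i
    rw [← coeff_mul_X_pow _ (J + 1) i, e1, coeff_sub,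
      coeff_mul_eq_zero Q₂ V b b _ d2 hV (by omega),
      coeff_mul_eq_zero Λ V₂ b b _ d1 hV₂ (by omega), sub_zero, coeff_zero]
  exact hfd.trans (hrel.dvd_of_dvd_mul_left ⟨U₂, by linear_combination -e2⟩)

end gcd

variable {F : Type*} [Field F]

theorem local_step (Q Q₂ f S : F[X][X]) (c : F[X]) (k J b E d : ℕ) (hQ : Q ≠ 0)
    (hQe : Q = (C c * f) ^ k * Q₂) (hf : Irreducible f) (hr : 0 < f.natDegree)
    (hA : Ann S J b Q) (hA₂ : ¬ Ann S J b Q₂) (hb : E + b ≤ J + 1)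
    (hS : S.natDegree ≤ J) (hSw : WD d S (J * d))
    (hF : ∀ h : F[X], h ≠ 0 → h.natDegree ≤ Q.natDegree → ∃ s, h.eval s ≠ 0)
    (hE : 4 * d * Q.natDegree + 2 * Q.natDegree < E) :
    4 * f.leadingCoeff.natDegree < f.natDegree := by
  obtain ⟨Λ, U, V, g, hQg, hP, hprim, hrel, hH⟩ := reduce Q S J b hQ (by omega) hA
  have hV : ∀ i, b ≤ i → V.coeff i = 0 := by
    intro i hi
    have := hH 1 (by simp) i hi
    rwa [one_mul] at this
  have hΛ := hprim.ne_zero
  have hg : g ≠ 0 := by rintro rfl; rw [mul_zero] at hQg; exact hQ hQg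
  have hdvd : f ∣ Λ := by
    by_contra hnd
    apply hA₂
    by_cases hk : k = 0
    · rw [hk, pow_zero, one_mul] at hQe; exact hQe ▸ hA
    have hc : c ≠ 0 := by
      rintro rfl
      rw [C_0, zero_mul, zero_pow hk, zero_mul] at hQe
      exact hQ hQe
    have r1 : IsRelPrime Λ f := (hf.isRelPrime_iff_not_dvd.mpr hnd).symm
    have r2 : IsRelPrime Λ (C c) := by
      intro p h1 h2
      have e := eq_C_of_natDegree_eq_zero (show p.natDegree = 0 by
        have := natDegree_le_of_dvd h2 (C_ne_zero.mpr hc)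
        rw [natDegree_C] at this; omega)
      rw [e] at h1 ⊢
      exact isUnit_C.mpr (hprim _ h1)
    have r3 : IsRelPrime Λ ((C c * f) ^ k) := (r2.mul_right r1).pow_right
    obtain ⟨H, hH'⟩ : Λ ∣ Q₂ := r3.dvd_of_dvd_mul_left ⟨g, by rw [← hQe, hQg]⟩
    have e1 : g = (C c * f) ^ k * H := by
      apply mul_left_cancel₀ hΛ
      rw [← hQg, hQe, hH']; ring
    have d1 : H.natDegree ≤ g.natDegree := natDegree_le_of_dvd (Dvd.intro_left _ e1.symm) hg
    intro i hi hi'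
    have e2 : Q₂ * S = (H * U) * X ^ (J + 1) + H * V := by
      rw [hH']; linear_combination H * hP
    rw [e2, coeff_add, coeff_mul_X_pow', if_neg (by omega), hH H d1 i hi, add_zero]
  have d1 : Λ.natDegree ≤ Q.natDegree := natDegree_le_of_dvd ⟨g, hQg⟩ hQ
  have hU : U.natDegree ≤ Λ.natDegree :=
    natDegree_le_of_coeff _ _ (pade_U Λ S U V J b _ hP hV (by omega) hS le_rfl)
  obtain ⟨Y, hY⟩ := hdvd
  refine core Λ S U V f Y J b E d hP hV hb hS hSw hprim hY
    (res_ne_zero f Λ U ⟨Y, hY⟩ hΛ hrel _ hU) (res_ne_zero Λ Λ U dvd_rfl hΛ hrel _ hU)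
    (fun h h0 hd => hF h h0 (hd.trans d1)) ?_ hr
  have := Nat.mul_le_mul_left (4 * d) d1
  omega

end H59CVP
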