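import Mathlib

/-!
# Weighted degree of resultants and the key resultant identity (helper59, MP_b0c4db_lc)
-/

namespace H59CVP

open Polynomial

variable {F : Type*} [Field F]

/-- every monomial `x^i T^j` of `Φ` has `i + j D ≤ w`. -/
def WD (D : ℕ) (Φ : F[X][X]) (w : ℕ) : Prop :=
  ∀ j, Φ.coeff j ≠ 0 → (Φ.coeff j).natDegree + j * D ≤ w

/-- weighted degree, `wt x = 1`, `wt T = D`. -/
noncomputable def wdeg (D : ℕ) (Φ : F[X][X]) : ℕ :=
  Φ.support.sup fun j => (Φ.coeff j).natDegree + j * D

theorem WD_wdeg (D : ℕ) (Φ : F[X][X]) : WD D Φ (wdeg D Φ) := by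
  intro j hj
  exact Finset.le_sup (f := fun j => (Φ.coeff j).natDegree + j * D) (mem_support_iff.mpr hj)

theorem exists_wdeg (D : ℕ) (Φ : F[X][X]) (h : Φ ≠ 0) :
    ∃ j, Φ.coeff j ≠ 0 ∧ (Φ.coeff j).natDegree + j * D = wdeg D Φ := by
  obtain ⟨j, hj, e⟩ := Finset.exists_mem_eq_sup Φ.support (support_nonempty.mpr h)
    (fun j => (Φ.coeff j).natDegree + j * D)
  exact ⟨j, mem_support_iff.mp hj, e.symm⟩

theorem WD.mono {D : ℕ} {Φ : F[X][X]} {w w' : ℕ} (h : WD D Φ w) (hw : w ≤ w') : WD D Φ w' :=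
  fun j hj => (h j hj).trans hw

theorem det_natDegree_le {ι : Type*} [Fintype ι] [DecidableEq ι] (A : Matrix ι ι F[X])
    (a b : ι → ℕ) (h : ∀ i j, A i j ≠ 0 → (A i j).natDegree + a i ≤ b j) (hd : A.det ≠ 0) :
    A.det.natDegree + ∑ i, a i ≤ ∑ j, b j := by
  by_contra hlt
  push Not at hlt
  apply leadingCoeff_ne_zero.mpr hd
  rw [leadingCoeff]
  generalize A.det.natDegree = N at hlt ⊢
  rw [Matrix.det_apply, finsetSum_coeff]
  apply Finset.sum_eq_zero
  intro σ _
  rw [Units.smul_def, coeff_smul]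
  suffices hs : (∏ i, A (σ i) i).coeff N = 0 by rw [hs, smul_zero]
  by_cases hz : ∃ i, A (σ i) i = 0
  · obtain ⟨i, hi⟩ := hz
    rw [Finset.prod_eq_zero (f := fun i => A (σ i) i) (Finset.mem_univ i) hi, coeff_zero]
  · push Not at hz
    apply coeff_eq_zero_of_natDegree_lt
    have h1 : (∏ i, A (σ i) i).natDegree ≤ ∑ i, (A (σ i) i).natDegree := natDegree_prod_le _ _
    have h2 : ∑ i, ((A (σ i) i).natDegree + a (σ i)) ≤ ∑ j, b j :=
      Finset.sum_le_sum fun i _ => h _ _ (hz i)
    rw [Finset.sum_add_distrib, Equiv.sum_comp σ a] at h2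
    omega

theorem res_natDegree_le (D : ℕ) (f g : F[X][X]) (wf wg r n : ℕ) (hf : WD D f wf)
    (hg : WD D g wg) (hd : resultant f g r n ≠ 0) :
    (resultant f g r n).natDegree + r * n * D ≤ n * wf + r * wg := by
  have key := det_natDegree_le (sylvester f g r n) (fun i => (i : ℕ) * D)
    (fun j => j.addCases (fun j₁ : Fin r => wg + (j₁ : ℕ) * D) (fun j₁ : Fin n => wf + (j₁ : ℕ) * D))
    (by
      intro i j
      induction j using Fin.addCases with
      | left j =>
        simp only [sylvester, Matrix.of_apply, Fin.addCases_left, Set.mem_Icc]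
        split_ifs with hc
        · intro hne
          have := hg _ hne
          have e : (i : ℕ) * D = ((i : ℕ) - j) * D + (j : ℕ) * D := by
            rw [← add_mul]; congr 1; omega
          omega
        · intro hne; exact absurd rfl hne
      | right j =>
        simp only [sylvester, Matrix.of_apply, Fin.addCases_right, Set.mem_Icc]
        split_ifs with hc
        · intro hne
          have := hf _ hne
          have e : (i : ℕ) * D = ((i : ℕ) - j) * D + (j : ℕ) * D := by
            rw [← add_mul]; congr 1; omega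
          omega
        · intro hne; exact absurd rfl hne) hd
  rw [Fin.sum_univ_add, Fin.sum_univ_add] at key
  simp only [Fin.val_castAdd, Fin.val_natAdd, Fin.addCases_left, Fin.addCases_right, add_mul,
    Finset.sum_add_distrib, Finset.sum_const, Finset.card_univ, Fintype.card_fin,
    smul_eq_mul] at key
  have e : n * (r * D) = r * n * D := by ring
  unfold resultant
  omega

section ring
variable {A : Type*} [CommRing A]

theorem res_mul_right' (f g₁ g₂ : A[X]) (r n₁ n₂ : ℕ) (hf : f.natDegree ≤ r)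
    (h₁ : g₁.natDegree ≤ n₁) (h₂ : g₂.natDegree ≤ n₂) :
    resultant f (g₁ * g₂) r (n₁ + n₂) = resultant f g₁ r n₁ * resultant f g₂ r n₂ := by
  obtain ⟨k₁, rfl⟩ := le_iff_exists_add.mp h₁
  obtain ⟨k₂, rfl⟩ := le_iff_exists_add.mp h₂
  have e : g₁.natDegree + k₁ + (g₂.natDegree + k₂) = (g₁.natDegree + g₂.natDegree) + (k₁ + k₂) := by
    ring
  rw [e, resultant_add_right_deg _ _ _ _ _ natDegree_mul_le, resultant_mul_right _ _ _ _ hf,
    resultant_add_right_deg _ _ _ _ _ le_rfl, resultant_add_right_deg _ _ _ _ _ le_rfl]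
  ring

/-- the key identity. -/
theorem res_key (f U W Q : A[X]) (z : A) (e r n : ℕ) (hf : f.natDegree ≤ r)
    (hU : U.natDegree ≤ n) (hW : W.natDegree ≤ n) (hQ : Q.natDegree + r ≤ e + n)
    (h : (X - C z) ^ e * U = W + f * Q) :
    (-1) ^ (r * e) * f.eval z ^ e * resultant f U r n = f.coeff r ^ e * resultant f W r n := by
  have h1 : ((X - C z) ^ e : A[X]).natDegree ≤ e := by
    refine natDegree_pow_le.trans ?_
    have : (X - C z : A[X]).natDegree ≤ 1 := natDegree_X_sub_C_le z
    nlinarith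
  have h2 := res_mul_right' f ((X - C z) ^ e) U r e n hf h1 hU
  rw [resultant_X_sub_C_pow_right _ _ _ _ hf, h, resultant_add_mul_right _ _ _ _ _ hQ hf,
    add_comm e n, resultant_add_right_deg _ _ _ _ _ hW] at h2
  exact h2.symm

end ring

end H59CVP
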