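import Pool.Agent.P.MP_b0c4db_lc.H59.Reduce

/-!
# The substitution `T ↦ u + (x - α) T`
-/

namespace H59CVP

open Polynomial

variable {F : Type*} [Field F]

/-- the polynomial `u + (x - α) T`. -/
noncomputable def lin (α u : F) : F[X][X] := C (X - C α) * X + C (C u)

theorem natDegree_lin (α u : F) : (lin α u).natDegree = 1 :=
  natDegree_linear (X_sub_C_ne_zero α)

theorem natDegree_comp_lin (α u : F) (Φ : F[X][X]) :
    (Φ.comp (lin α u)).natDegree = Φ.natDegree := by
  rw [natDegree_comp, natDegree_lin, mul_one]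

theorem comp_lin_ne_zero (α u : F) {Φ : F[X][X]} (h : Φ ≠ 0) : Φ.comp (lin α u) ≠ 0 := by
  intro hz
  rw [comp_eq_zero_iff] at hz
  rcases hz with hz | ⟨-, hz⟩
  · exact h hz
  · have := natDegree_lin α u
    rw [hz, natDegree_C] at this
    exact zero_ne_one this

/-- `u` is a root of `f(α, T)` of multiplicity more than half the degree of `f`. -/
def Good (f : F[X][X]) (α u : F) : Prop :=
  ∃ h, f.natDegree < 2 * h ∧ (X - C u) ^ h ∣ f.map (evalRingHom α)

theorem Good.unique {f : F[X][X]} (hf : f.IsPrimitive) {α u u' : F} (h : Good f α u)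
    (h' : Good f α u') : u = u' := by
  by_contra hne
  obtain ⟨a, ha, hd⟩ := h
  obtain ⟨b, hb, hd'⟩ := h'
  have h0 : f.map (evalRingHom α) ≠ 0 := by
    intro hz
    have : C (X - C α) ∣ f := by
      rw [C_dvd_iff_dvd_coeff]
      intro i
      rw [dvd_iff_isRoot]
      have := congrArg (fun P => P.coeff i) hz
      simpa using this
    exact not_isUnit_X_sub_C α (hf _ this)
  have hc : IsCoprime ((X - C u : F[X]) ^ a) ((X - C u') ^ b) :=
    (isCoprime_X_sub_C_of_isUnit_sub (IsUnit.mk0 _ (sub_ne_zero.mpr hne))).pow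
  have h1 := natDegree_le_of_dvd (hc.mul_dvd hd hd') h0
  rw [natDegree_mul (pow_ne_zero _ (X_sub_C_ne_zero u)) (pow_ne_zero _ (X_sub_C_ne_zero u')),
    natDegree_pow, natDegree_pow, natDegree_X_sub_C, natDegree_X_sub_C] at h1
  have h2 : (f.map (evalRingHom α)).natDegree ≤ f.natDegree := natDegree_map_le
  omega

theorem shift_prim (f : F[X][X]) (hf : Irreducible f) (hr : 0 < f.natDegree) (α u : F) :
    ∃ (c : F[X]) (f' : F[X][X]), f.comp (lin α u) = C c * f' ∧ Irreducible f' ∧
      f'.natDegree = f.natDegree ∧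
      (4 * f'.leadingCoeff.natDegree < f'.natDegree → Good f α u) := by
  let : NormalizedGCDMonoid F[X] := Nonempty.some inferInstance
  set g := f.comp (lin α u) with hg
  have hg0 : g ≠ 0 := comp_lin_ne_zero α u hf.ne_zero
  have hc0 : g.content ≠ 0 := fun h => hg0 (content_eq_zero_iff.mp h)
  have hdeg : g.primPart.natDegree = f.natDegree := by
    rw [natDegree_primPart, natDegree_comp_lin]
  refine ⟨g.content, g.primPart, g.eq_C_content_mul_primPart, ?_, hdeg, ?_⟩
  · set K := FractionRing F[X]
    have hinj := IsFractionRing.injective F[X] K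
    have h1 := ((hf.isPrimitive hr.ne').irreducible_iff_irreducible_map_fraction_map (K := K)).mp hf
    have hπ : algebraMap F[X] K (X - C α) ≠ 0 := by
      rw [Ne, IsFractionRing.to_map_eq_zero_iff]; exact X_sub_C_ne_zero α
    let := invertibleOfNonzero hπ
    have h2 : Irreducible (g.map (algebraMap F[X] K)) := by
      have := (MulEquiv.irreducible_iff
        (algEquivCMulXAddC (algebraMap F[X] K (X - C α)) (algebraMap F[X] K (C u)))).mpr h1
      convert this using 1
      rw [algEquivCMulXAddC_apply, hg, Polynomial.map_comp, lin, ← comp_eq_aeval]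
      simp only [Polynomial.map_add, Polynomial.map_mul, map_C, map_X]
    rw [g.eq_C_content_mul_primPart, Polynomial.map_mul, map_C,
      irreducible_isUnit_mul (isUnit_C.mpr (IsUnit.mk0 _ (by
        rw [Ne, IsFractionRing.to_map_eq_zero_iff]; exact hc0)))] at h2
    exact (g.isPrimitive_primPart.irreducible_iff_irreducible_map_fraction_map (K := K)).mpr h2
  · intro hlc
    rw [hdeg] at hlc
    set π : F[X] := X - C α with hπ
    have hπp : Prime π := prime_X_sub_C α
    set t := f.comp (X + C (C u)) with ht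
    have hgt : g = t.comp (C π * X) := by
      rw [hg, ht, comp_assoc, lin]; simp [hπ]
    have hco : ∀ j, t.coeff j * π ^ j = g.content * g.primPart.coeff j := by
      intro j
      rw [← comp_C_mul_X_coeff, ← hgt, ← coeff_C_mul, ← g.eq_C_content_mul_primPart]
    obtain ⟨h, c₁, hnd, hc⟩ := WfDvdMonoid.max_power_factor hc0 hπp.irreducible
    have hle : f.natDegree ≤ h + g.primPart.leadingCoeff.natDegree := by
      by_cases hh : f.natDegree ≤ h
      · omega
      · obtain ⟨k, hk⟩ : ∃ k, f.natDegree = h + k := ⟨f.natDegree - h, by omega⟩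
        have e := hco f.natDegree
        rw [← hdeg, coeff_natDegree (p := g.primPart), hdeg, hc, hk, pow_add] at e
        have e2 : c₁ * g.primPart.leadingCoeff = π ^ k * t.coeff (h + k) := by
          apply mul_left_cancel₀ (pow_ne_zero h hπp.ne_zero)
          linear_combination -e
        have d1 : π ^ k ∣ g.primPart.leadingCoeff :=
          hπp.pow_dvd_of_dvd_mul_left k hnd ⟨_, e2⟩
        have d2 := natDegree_le_of_dvd d1 (leadingCoeff_ne_zero.mpr g.primPart_ne_zero)
        rw [natDegree_pow, hπ, natDegree_X_sub_C] at d2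
        omega
    refine ⟨h, by omega, ?_⟩
    rw [X_sub_C_pow_dvd_iff, X_pow_dvd_iff]
    intro j hj
    have e : (f.map (evalRingHom α)).comp (X + C u) = t.map (evalRingHom α) := by
      rw [ht, Polynomial.map_comp]; simp
    rw [e, coeff_map]
    obtain ⟨k, hk⟩ : ∃ k, h = j + (k + 1) := ⟨h - j - 1, by omega⟩
    have e1 := hco j
    rw [hc, hk, pow_add, pow_succ] at e1
    have e2 : t.coeff j = π * (π ^ k * c₁ * g.primPart.coeff j) := by
      apply mul_left_cancel₀ (pow_ne_zero j hπp.ne_zero)
      linear_combination e1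
    rw [e2]
    simp [hπ]

end H59CVP
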